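import Pool.Agent.H5.RPG.Stmts

/-!
# Row SNK of the board `rpg` (MP_e3dc0b_lc)
-/

set_option autoImplicit false

namespace Pool.RPG

theorem snk_thm : SNKStmt := by
  intro V ι _ s B hB m
  induction m with
  | zero =>
    intro _
    exact ⟨∅, Finset.empty_subset _, Finset.card_empty, fun v hv => absurd hv (Finset.notMem_empty v)⟩
  | succ m ih =>
    intro hm
    obtain ⟨B₁, h1, h2, h3⟩ := ih (by omega)
    have hne : (B \ B₁).Nonempty := by
      rw [← Finset.card_pos, Finset.card_sdiff_of_subset h1]
      omega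
    obtain ⟨v, hv, hj⟩ := hB (B \ B₁) Finset.sdiff_subset hne
    rw [Finset.mem_sdiff] at hv
    have hsub : B \ insert v B₁ ⊆ B \ B₁ :=
      Finset.sdiff_subset_sdiff (Finset.Subset.refl B) (Finset.subset_insert v B₁)
    refine ⟨insert v B₁, Finset.insert_subset hv.1 h1, ?_, ?_⟩
    · rw [Finset.card_insert_of_notMem hv.2, h2]
    · intro u hu j hmem
      rw [Finset.mem_insert] at hu
      rcases hu with rfl | hu
      · exact hj j (hsub hmem)
      · exact h3 u hu j (hsub hmem)

end Pool.RPG
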